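import Mathlib
import Pool.Agent.H905R3.GapDefs
import Pool.Agent.Y211.LY.Growth

/-!
# The second cohomological Lyapunov exponents of rational self-maps of the plane are dense

The problem asks whether `μ_i (f)` is isolated from `1`.  The starting file `NoUniformGap` gives maps
with `μ_2 (f) ∈ (μ⁻¹, 1)`.  Here we show that the exponents `μ_2 (f) = λ_2 (f) / λ_1 (f)` of the
dominant rational self-maps of the projective plane over any field `K` are dense in `(0, ∞)`, already
for the monomial maps `(x, y) ↦ (x ^ a y, x ^ c y ^ d)`, `c + d ≤ a`, which restrict to polynomial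
endomorphisms of the affine plane and to endomorphisms of the torus, and also if `μ_1 (f)` is
required to be larger than a given number.  In particular there are such `f` with `μ_2 (f)` in
`(μ⁻¹, 1)` and such `f` with `μ_2 (f)` in `(1, μ)`, for each `μ > 1`, and `1` plays no special role.
-/

set_option autoImplicit false

namespace Pool.Agent.Results.MP_dcd72d_ag.DenseExponents

open Pool.Agent.H905R3 MvPolynomial

/-- **The exponents `μ_2` of the monomial endomorphisms of the plane are dense in `(0, ∞)`.**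
For every field `K`, all real `0 ≤ s < t` and every real `R` there is a dominant rational self-map
`f : [X₀ : X₁ : X₂] ↦ [X₀ ^ (a + 1) : X₁ ^ a X₂ : X₀ ^ (a + 1 - c - d) X₁ ^ c X₂ ^ d]` of `ℙ²` over `K`
with dynamical degrees `l 0 = 1`, `l 1`, `l 2` such that `μ_1 (f) = l 1 / l 0` is larger than `R` and
`μ_2 (f) = l 2 / l 1` lies in `(s, t)`. -/
theorem result (K : Type*) [Field K] (R s t : ℝ) (hs : 0 ≤ s) (hst : s < t) :
    ∃ f : RatMap K 2, f.Dominant ∧
      (∃ a c d : ℕ, c + d ≤ a ∧ f.poly = ![X 0 ^ (a + 1), X 1 ^ a * X 2,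
        X 0 ^ (a + 1 - (c + d)) * X 1 ^ c * X 2 ^ d]) ∧
      ∃ l : Fin 3 → ℝ, (∀ i, f.IsDynamicalDegree i (l i)) ∧ l 0 = 1 ∧
        R < l 1 / l 0 ∧ s < l 2 / l 1 ∧ l 2 / l 1 < t := by
  obtain ⟨c, e, j, hc, hR, h1, h2⟩ := Pool.Agent.Y211.LY.be_dense R s t hs hst
  refine ⟨Pool.Agent.Y211.LY.f K c e j, Pool.Agent.Y211.LY.dominant K c e j,
    ⟨Pool.Agent.Y211.LY.aa c e j, c, e + 1, ?_, ?_⟩,
    ![1, Pool.Agent.Y211.LY.al c e j, Pool.Agent.Y211.LY.DD c e j],
    Pool.Agent.Y211.LY.dyn c e j hc K, rfl, ?_, ?_, ?_⟩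
  · unfold Pool.Agent.Y211.LY.aa
    omega
  · have h3 : Pool.Agent.Y211.LY.aa c e j + 1 - (c + (e + 1)) = j + 1 := by
      unfold Pool.Agent.Y211.LY.aa
      omega
    rw [h3]
    rfl
  · change R < Pool.Agent.Y211.LY.al c e j / 1
    rw [div_one]
    exact hR
  · change s < (Pool.Agent.Y211.LY.DD c e j : ℝ) / Pool.Agent.Y211.LY.al c e j
    rw [Pool.Agent.Y211.LY.quot c e j hc]
    exact h1
  · change (Pool.Agent.Y211.LY.DD c e j : ℝ) / Pool.Agent.Y211.LY.al c e j < t
    rw [Pool.Agent.Y211.LY.quot c e j hc]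
    exact h2

end Pool.Agent.Results.MP_dcd72d_ag.DenseExponents
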